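import Pool.Agent.Lib.MP_359fef_co.Defs

/-!
# Working definitions for the proof of MP_359fef_co

These are internal to the proof; the final statement uses `Defs.lean` only.
-/

namespace Pool.Agent.MP_359fef_co

open Finset Matrix Module

universe u

/-! ### operators on functions on matrices -/

section ops

variable {K : Type u} [Field K] [Fintype K] {n : ℕ}

open Classical in
/-- The reflections of determinant `a` in the group `P`. -/
noncomputable def Rset (P : Matrix (Fin n) (Fin n) K → Prop) (a : K) :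
    Finset (Matrix (Fin n) (Fin n) K) :=
  univ.filter (fun t => P t ∧ IsRefl t ∧ t.det = a)

open Classical in
/-- `(R_a f)(g) = ∑_{t reflection, det t = a} f(g t) + [a=1] [n]_x f(g)`. -/
noncomputable def op (P : Matrix (Fin n) (Fin n) K → Prop) (x : ℚ) (a : K)
    (f : Matrix (Fin n) (Fin n) K → ℚ) (g : Matrix (Fin n) (Fin n) K) : ℚ :=
  ∑ t ∈ Rset P a, f (g * t) + if a = 1 then qInt x n * f g else 0

/-- Iterated operators; the head of the list acts first (innermost). -/
noncomputable def opL (P : Matrix (Fin n) (Fin n) K → Prop) (x : ℚ) :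
    List K → (Matrix (Fin n) (Fin n) K → ℚ) → Matrix (Fin n) (Fin n) K → ℚ
  | [], f => f
  | a :: l, f => opL P x l (op P x a f)

open Classical in
/-- The coefficient of `g` in the product of the central elements
`R_a = ∑_{t reflection, det t = a} t + [a=1] [n]_x · 1` over the list. -/
noncomputable def cf (P : Matrix (Fin n) (Fin n) K → Prop) (x : ℚ) :
    List K → Matrix (Fin n) (Fin n) K → ℚ
  | [], g => if g = 1 then 1 else 0
  | a :: l, g => ∑ t ∈ Rset P a, cf P x l (t⁻¹ * g) + if a = 1 then qInt x n * cf P x l g else 0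

/-- The coefficient function of a single `R_a`. -/
noncomputable def fa (P : Matrix (Fin n) (Fin n) K → Prop) (x : ℚ) (a : K)
    (g : Matrix (Fin n) (Fin n) K) : ℚ :=
  open Classical in
  (if g ∈ Rset P a then 1 else 0) + if a = 1 ∧ g = 1 then qInt x n else 0

/-- The value of `cf` at an irreducible element, for a list of length `l`. -/
noncomputable def kapVal (x : ℚ) (n l : ℕ) : ℚ :=
  if n ≤ l then qInt x n ^ (l - 1) * qBinom x (l - 1) (n - 1) else 0

end ops

/-! ### Euler weights on a subset of a finite partial order -/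

section chi

variable {α : Type*} [PartialOrder α] [Finite α]

/-- The finite set of elements of `S` strictly above `D`. -/
noncomputable def aboveS (S : Set α) (D : α) : Finset α :=
  (Set.toFinite {E : α | E ∈ S ∧ D < E}).toFinset

theorem mem_aboveS {S : Set α} {D E : α} : E ∈ aboveS S D ↔ E ∈ S ∧ D < E := by
  unfold aboveS
  rw [Set.Finite.mem_toFinset]
  exact Iff.rfl

open Classical in
/-- The function `χ_S`, zero off `S`, with `∑_{E ∈ S, D ≤ E} χ_S(E) = 1` for all `D ∈ S`. -/
noncomputable def chi (S : Set α) : α → ℤ :=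
  (wellFounded_gt (α := α)).fix (fun D ih =>
    if D ∈ S then 1 - ∑ E ∈ (aboveS S D).attach, ih E.1 (mem_aboveS.1 E.2).2 else 0)

open Classical in
theorem chi_eq (S : Set α) (D : α) :
    chi S D = if D ∈ S then 1 - ∑ E ∈ aboveS S D, chi S E else 0 := by
  conv_lhs => rw [chi, WellFounded.fix_eq]
  rw [← Finset.sum_attach (aboveS S D)]
  rfl

end chi

/-! ### Hermitian spaces -/

/-- A finite field with `q^2` elements and its involution `x ↦ x^q`. -/
structure Cj (K : Type u) [Field K] [Fintype K] where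
  /-- the size of the fixed field -/
  q : ℕ
  card_eq : Fintype.card K = q ^ 2
  /-- the involution -/
  σ : K →+* K
  σ_apply : ∀ x, σ x = x ^ q

variable {K : Type u} [Field K] [Fintype K]

/-- the number `X = -q` -/
def Cj.X (C : Cj K) : ℚ := -(C.q : ℚ)

/-- A nondegenerate Hermitian form on `W` (linear in the second variable). -/
structure Herm (C : Cj K) (W : Type u) [AddCommGroup W] [Module K W] where
  /-- the form -/
  f : W → W → K
  add_right : ∀ x y z, f x (y + z) = f x y + f x z
  smul_right : ∀ (a : K) (x y : W), f x (a • y) = a * f x y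
  symm : ∀ x y, f y x = C.σ (f x y)
  nondeg : ∀ x, (∀ y, f x y = 0) → x = 0

/-- The standard Hermitian form on `K^n`. -/
def stdHerm (C : Cj K) (n : ℕ) (x y : Fin n → K) : K := ∑ i, C.σ (x i) * y i

section rel

variable {C : Cj K} {W : Type u} [AddCommGroup W] [Module K W] {n : ℕ}

/-- Lagrangian relations on `W`. -/
def IsLag (H : Herm C W) (Λ : Submodule K (W × W)) : Prop :=
  ∀ p : W × W, p ∈ Λ ↔ ∀ r ∈ Λ, H.f p.1 r.1 = H.f p.2 r.2

/-- The space `{b ∈ W^n : ((g b)_i, b_i) ∈ Λ for all i}`. -/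
def solL (Λ : Submodule K (W × W)) (g : Matrix (Fin n) (Fin n) K) : Submodule K (Fin n → W) where
  carrier := {b | ∀ i, ((∑ j, g i j • b j), b i) ∈ Λ}
  add_mem' := by
    intro a b ha hb i
    have := Λ.add_mem (ha i) (hb i)
    simpa [Finset.sum_add_distrib, smul_add] using this
  zero_mem' := by
    intro i
    have h0 : ((∑ j, g i j • (0 : Fin n → W) j), (0 : Fin n → W) i) = (0 : W × W) := by simp
    rw [h0]
    exact Λ.zero_mem
  smul_mem' := by
    intro r a ha i
    have := Λ.smul_mem r (ha i)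
    simpa [Finset.smul_sum, smul_smul, mul_comm] using this

/-- `K_Λ(g) = (-q)^{dim solL Λ g}`. For `Λ` the graph of `h` this is `(-q)^{dim ker(g ⊗ h - 1)}`. -/
noncomputable def KR (C : Cj K) (Λ : Submodule K (W × W)) (g : Matrix (Fin n) (Fin n) K) : ℚ :=
  C.X ^ finrank K (solL Λ g)

/-- The relation `Λ_{w,μ} = {(x,x') : ∃ α, x' = h (x + α w), ⟨w,x⟩ = μ α}`. -/
def Lam (H : Herm C W) (h : W ≃ₗ[K] W) (w : W) (μ : K) : Submodule K (W × W) where
  carrier := {p | ∃ α : K, p.2 = h (p.1 + α • w) ∧ H.f w p.1 = μ * α}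
  add_mem' := by
    rintro a b ⟨α, h1, h2⟩ ⟨β, h3, h4⟩
    refine ⟨α + β, ?_, ?_⟩
    · simp only [Prod.snd_add, Prod.fst_add, h1, h3, add_smul, map_add]; abel
    · simp only [Prod.fst_add, H.add_right, h2, h4]; ring
  zero_mem' := ⟨0, by simp, by
    have := H.smul_right 0 w 0
    simp at this
    simp [this]⟩
  smul_mem' := by
    rintro r a ⟨α, h1, h2⟩
    refine ⟨r * α, ?_, ?_⟩
    · simp only [Prod.smul_snd, Prod.smul_fst, h1, mul_smul, map_add, map_smul, smul_add]
    · simp only [Prod.smul_fst, H.smul_right, h2]; ring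

/-- The space `S_{w,μ}(g) = {(η,v) : η - (g⊗h)η = v⊗w, ⟨w,η⟩ = -μ̄ v}`. -/
def Ssp (H : Herm C W) (h : W ≃ₗ[K] W) (g : Matrix (Fin n) (Fin n) K) (w : W) (μ : K) :
    Submodule K ((Fin n → W) × (Fin n → K)) where
  carrier := {p | (∀ i, p.1 i - ∑ j, g i j • h (p.1 j) = p.2 i • w) ∧
    ∀ i, H.f w (p.1 i) = - C.σ μ * p.2 i}
  add_mem' := by
    rintro a b ⟨h1, h2⟩ ⟨h3, h4⟩
    refine ⟨fun i => ?_, fun i => ?_⟩
    · simp only [Prod.fst_add, Prod.snd_add, Pi.add_apply, map_add, smul_add,
        Finset.sum_add_distrib, add_smul, ← h1 i, ← h3 i]; abel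
    · simp only [Prod.fst_add, Prod.snd_add, Pi.add_apply, H.add_right, h2 i, h4 i]; ring
  zero_mem' := by
    refine ⟨fun i => by simp, fun i => ?_⟩
    have := H.smul_right 0 w 0
    simp at this
    simp [this]
  smul_mem' := by
    rintro r a ⟨h1, h2⟩
    refine ⟨fun i => ?_, fun i => ?_⟩
    · have := congrArg (fun z => r • z) (h1 i)
      simp only [smul_sub, Finset.smul_sum, smul_smul] at this
      simp only [Prod.smul_fst, Prod.smul_snd, Pi.smul_apply, map_smul, smul_smul, smul_eq_mul]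
      rw [← this]
      simp only [mul_comm]
    · simp only [Prod.smul_fst, Prod.smul_snd, Pi.smul_apply, H.smul_right, h2 i, smul_eq_mul]
      ring

/-- `κ_{w,μ}(g) = (-q)^{dim S_{w,μ}(g)}`. -/
noncomputable def kap (H : Herm C W) (h : W ≃ₗ[K] W) (g : Matrix (Fin n) (Fin n) K) (w : W)
    (μ : K) : ℚ :=
  C.X ^ finrank K (Ssp H h g w μ)

/-- Totally isotropic `Λ`-forward-stable subspaces. -/
def DD (H : Herm C W) (Λ : Submodule K (W × W)) : Set (Submodule K W) :=
  {D | (∀ x ∈ D, ∀ y ∈ D, H.f x y = 0) ∧ ∀ x ∈ D, ∃ x' ∈ D, (x, x') ∈ Λ}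

instance finiteSub [Finite W] : Finite (Submodule K W) :=
  Finite.of_injective (fun D : Submodule K W => (D : Set W)) SetLike.coe_injective

/-- `ñ_m(Λ) = ∑_{D} |D|^m χ_Λ(D)`. -/
noncomputable def nt [Finite W] (H : Herm C W) (Λ : Submodule K (W × W)) (m : ℕ) : ℚ :=
  letI := Fintype.ofFinite (Submodule K W)
  ∑ D : Submodule K W, (Nat.card D : ℚ) ^ m * (chi (DD H Λ) D : ℚ)

/-- The weight of the pair `(w,μ)` in the transfer identity for the determinant `a`:
zero unless `μ + μ̄ = -⟨w,w⟩`, and then `[μ̄ = -aμ] - 1/q`. -/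
noncomputable def wt (H : Herm C W) (a : K) (w : W) (μ : K) : ℚ :=
  open Classical in
  if μ + C.σ μ = - H.f w w then (if C.σ μ = - (a * μ) then 1 else 0) - (C.q : ℚ)⁻¹ else 0

end rel

/-- The numbers `n_m(k)` (for `x = -q`: the number of `m`-tuples spanning a totally isotropic
subspace of a `k`-dimensional Hermitian space). -/
def nn (x : ℚ) : ℕ → ℕ → ℚ
  | 0, _ => 1
  | m + 1, k => nn x m k - (x ^ k - 1) * (x ^ (k - 1) - 1) * x ^ (2 * m) * nn x m (k - 2)

end Pool.Agent.MP_359fef_co
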