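import Mathlib

/-!
# Definitions for MP_359fef_co

Factorizations of irreducible elements of `GL_n(q)` and `GU_n(q)` into reflections of prescribed
determinants.
-/

namespace Pool.Agent.MP_359fef_co

open Finset Matrix Module

universe u

/-! ### q-numbers -/

/-- `[k]_x = 1 + x + ... + x^(k-1)`. -/
def qInt (x : ℚ) (k : ℕ) : ℚ := ∑ i ∈ range k, x ^ i

/-- `[k]!_x = [k]_x [k-1]_x ... [1]_x`. -/
def qFact (x : ℚ) (k : ℕ) : ℚ := ∏ i ∈ range k, qInt x (i + 1)

/-- The Gaussian binomial coefficient `[N]!_x / ([k]!_x [N-k]!_x)` (used for `k ≤ N` only). -/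
def qBinom (x : ℚ) (N k : ℕ) : ℚ := qFact x N / (qFact x k * qFact x (N - k))

/-- The conjectured value: `[n]_x^(l-1) * ∑_{i=0}^{min(m,l-n)} (-1)^i C(m,i) binom(l-i-1,n-1)_x`
(the sum is over `0 ≤ i ≤ m` with `n + i ≤ l`; it is empty when `l < n`). -/
def conjValue (x : ℚ) (n l m : ℕ) : ℚ :=
  qInt x n ^ (l - 1) * ∑ i ∈ (range (m + 1)).filter (fun i => n + i ≤ l),
    (-1) ^ i * (m.choose i : ℚ) * qBinom x (l - i - 1) (n - 1)

/-! ### reflections, irreducible elements, the groups -/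

variable {K : Type u} [Field K] {n : ℕ}

/-- A reflection: a non-identity element fixing some hyperplane pointwise. -/
def IsRefl (g : Matrix (Fin n) (Fin n) K) : Prop :=
  g ≠ 1 ∧ ∃ H : Submodule K (Fin n → K), finrank K H + 1 = n ∧ ∀ x ∈ H, g *ᵥ x = x

/-- `c` is irreducible: `0` and `V` are the only `c`-invariant subspaces of `V = K^n`. -/
def IsIrred (c : Matrix (Fin n) (Fin n) K) : Prop :=
  ∀ S : Submodule K (Fin n → K), (∀ x ∈ S, c *ᵥ x ∈ S) → S = ⊥ ∨ S = ⊤

/-- Membership in the general linear group. -/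
def InGL (g : Matrix (Fin n) (Fin n) K) : Prop := IsUnit g.det

/-- Membership in `GU_n(q)`, for `K` the field with `q^2` elements: the matrix `(g_{j,i}^q)` is
the inverse of `g`. -/
def InGU (q : ℕ) (g : Matrix (Fin n) (Fin n) K) : Prop := g * (gᵀ.map (fun x => x ^ q)) = 1

/-- The number `N(c;a)` of tuples `(t_1,...,t_l)` of reflections in the group `P` with
`t_1 ⋯ t_l = c` and `det t_i = a_i` for all `i`. -/
noncomputable def numFact (P : Matrix (Fin n) (Fin n) K → Prop) (c : Matrix (Fin n) (Fin n) K)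
    {l : ℕ} (a : Fin l → K) : ℕ :=
  Nat.card {t : Fin l → Matrix (Fin n) (Fin n) K //
    (∀ i, P (t i) ∧ IsRefl (t i) ∧ (t i).det = a i) ∧ (List.ofFn t).prod = c}

end Pool.Agent.MP_359fef_co
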