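import Pool.Agent.Lib.MP_359fef_co.GUFinal
import Pool.Agent.Lib.MP_359fef_co_h56.GL

/-!
# Reflection factorizations of irreducible elements with prescribed determinants (MP_359fef_co)
-/

namespace Pool.Agent.MP_359fef_co

open Finset Matrix Module

universe u

theorem ne_one_of_irred {F : Type u} [Field F] {n : ℕ} (hn : 1 ≤ n)
    (c : Matrix (Fin n) (Fin n) F) (hirr : IsIrred c) (h1 : n = 1 → c ≠ 1) : c ≠ 1 := by
  rcases Nat.lt_or_ge 1 n with h2 | h2
  · rintro rfl
    set e : Fin n → F := Pi.single ⟨0, by omega⟩ 1 with he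
    have he0 : e ≠ 0 := by
      intro h
      have := congrFun h ⟨0, by omega⟩
      rw [he, Pi.single_eq_same] at this
      exact one_ne_zero this
    have h3 : finrank F (Submodule.span F {e}) = 1 := finrank_span_singleton he0
    rcases hirr (Submodule.span F {e}) (fun x hx => by rw [Matrix.one_mulVec]; exact hx) with h | h
    · rw [h, finrank_bot] at h3
      omega
    · rw [h, finrank_top, finrank_fin_fun] at h3
      omega
  · exact h1 (by omega)

/-- the linear case -/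
theorem glFinal {F : Type u} [Field F] [Fintype F] {n l : ℕ} (hn : 1 ≤ n) (hl : 1 ≤ l)
    (c : Matrix (Fin n) (Fin n) F) (hc : InGL c) (hirr : IsIrred c) (h1 : n = 1 → c ≠ 1)
    (a : Fin l → F) (hprod : ∏ i, a i = c.det) :
    (numFact InGL c a : ℚ) = conjValue (Fintype.card F) n l (Nat.card {i // a i = 1}) := by
  have hc1 := ne_one_of_irred hn c hirr h1
  exact numFact_eq InGL (fun g hg => hg) _ c hc1 Set.univ
    (fun l hl _ hp => glMain hn c hc hirr hc1 l hl hp) hn l a hl (fun i => trivial) hprod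

/-- the unitary case -/
theorem guFinal {K : Type u} [Field K] [Fintype K] {q : ℕ} (hq : Fintype.card K = q ^ 2)
    {n l : ℕ} (hn : 1 ≤ n) (hl : 1 ≤ l) (c : Matrix (Fin n) (Fin n) K) (hc : InGU q c)
    (hirr : IsIrred c) (h1 : n = 1 → c ≠ 1) (a : Fin l → K) (ha : ∀ i, a i ^ (q + 1) = 1)
    (hprod : ∏ i, a i = c.det) :
    (numFact (InGU q) c a : ℚ) = conjValue (-(q : ℚ)) n l (Nat.card {i // a i = 1}) := by
  obtain ⟨C, rfl⟩ := exists_Cj q hq
  have hc1 := ne_one_of_irred hn c hirr h1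
  exact numFact_eq (InGU C.q) (fun g hg => hg.isUnit_det) _ c hc1 {a | a ^ (C.q + 1) = 1}
    (fun l hl hA hp => guMain hn c hc hirr l hl hA hp) hn l a hl ha hprod

/-- Both halves together. -/
theorem main :
    (∀ (F : Type u) [Field F] [Fintype F] (n l : ℕ), 1 ≤ n → 1 ≤ l →
      ∀ c : Matrix (Fin n) (Fin n) F, InGL c → IsIrred c → (n = 1 → c ≠ 1) →
      ∀ a : Fin l → F, ∏ i, a i = c.det →
      (numFact InGL c a : ℚ) = conjValue (Fintype.card F) n l (Nat.card {i // a i = 1})) ∧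
    (∀ (K : Type u) [Field K] [Fintype K] (q : ℕ), Fintype.card K = q ^ 2 →
      ∀ (n l : ℕ), 1 ≤ n → 1 ≤ l →
      ∀ c : Matrix (Fin n) (Fin n) K, InGU q c → IsIrred c → (n = 1 → c ≠ 1) →
      ∀ a : Fin l → K, (∀ i, a i ^ (q + 1) = 1) → ∏ i, a i = c.det →
      (numFact (InGU q) c a : ℚ) = conjValue (-(q : ℚ)) n l (Nat.card {i // a i = 1})) :=
  ⟨fun _ _ _ _ _ hn hl c hc hirr h1 a hprod => glFinal hn hl c hc hirr h1 a hprod,
    fun _ _ _ _ hq _ _ hn hl c hc hirr h1 a ha hprod => guFinal hq hn hl c hc hirr h1 a ha hprod⟩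

end Pool.Agent.MP_359fef_co
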