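import Pool.Agent.Lib.MP_359fef_co.U0

/-!
# Basic facts on `GU_n(q)`, `GL_n(q)` and the operators `op`, `opL` (MP_359fef_co)
-/

namespace Pool.Agent.MP_359fef_co

open Finset Matrix Module

universe u

section GU
variable {K : Type u} [Field K] [Fintype K] (C : Cj K) {n : ℕ}

/-- conjugate transpose -/
def Cj.ct (C : Cj K) (g : Matrix (Fin n) (Fin n) K) : Matrix (Fin n) (Fin n) K := gᵀ.map C.σ

theorem Cj.ct_eq (g : Matrix (Fin n) (Fin n) K) : C.ct g = gᵀ.map (fun x => x ^ C.q) := by
  ext i j
  simp [Cj.ct, C.σ_apply]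

theorem Cj.ct_mul (g h : Matrix (Fin n) (Fin n) K) : C.ct (g * h) = C.ct h * C.ct g := by
  unfold Cj.ct
  rw [Matrix.transpose_mul, Matrix.map_mul]

theorem Cj.ct_one : C.ct (1 : Matrix (Fin n) (Fin n) K) = 1 := by
  unfold Cj.ct
  rw [Matrix.transpose_one, Matrix.map_one _ (map_zero _) (map_one _)]

theorem Cj.ct_ct (g : Matrix (Fin n) (Fin n) K) : C.ct (C.ct g) = g := by
  ext i j
  simp [Cj.ct, C.σ_σ]

theorem InGU_iff (g : Matrix (Fin n) (Fin n) K) : InGU C.q g ↔ g * C.ct g = 1 := by
  unfold InGU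
  rw [C.ct_eq]

theorem InGU_iff' (g : Matrix (Fin n) (Fin n) K) : InGU C.q g ↔ C.ct g * g = 1 := by
  rw [InGU_iff, _root_.mul_eq_one_comm]

theorem InGU_one : InGU C.q (1 : Matrix (Fin n) (Fin n) K) := by
  rw [InGU_iff, C.ct_one, mul_one]

variable {C}

theorem InGU.mul {g h : Matrix (Fin n) (Fin n) K} (hg : InGU C.q g) (hh : InGU C.q h) :
    InGU C.q (g * h) := by
  rw [InGU_iff] at *
  rw [C.ct_mul, Matrix.mul_assoc, ← Matrix.mul_assoc h, hh, Matrix.one_mul, hg]

theorem InGU.inv_eq {g : Matrix (Fin n) (Fin n) K} (hg : InGU C.q g) : g⁻¹ = C.ct g :=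
  Matrix.inv_eq_right_inv ((InGU_iff C g).1 hg)

theorem InGU.inv {g : Matrix (Fin n) (Fin n) K} (hg : InGU C.q g) : InGU C.q g⁻¹ := by
  rw [hg.inv_eq, InGU_iff, C.ct_ct]
  exact (InGU_iff' C g).1 hg

theorem InGU.isUnit_det {g : Matrix (Fin n) (Fin n) K} (hg : InGU C.q g) : IsUnit g.det := by
  rw [InGU_iff] at hg
  have := congrArg Matrix.det hg
  rw [Matrix.det_mul, Matrix.det_one] at this
  exact IsUnit.of_mul_eq_one _ this

theorem InGU.det_norm {g : Matrix (Fin n) (Fin n) K} (hg : InGU C.q g) :
    g.det * C.σ g.det = 1 := by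
  rw [InGU_iff] at hg
  have h := congrArg Matrix.det hg
  rw [Matrix.det_mul, Matrix.det_one] at h
  have h2 : (C.ct g).det = C.σ g.det := by
    unfold Cj.ct
    rw [← Matrix.det_transpose g]
    exact (RingHom.map_det C.σ gᵀ).symm
  rw [h2] at h
  exact h

/-- the standard Hermitian form as an `Herm` -/
def stdH (C : Cj K) (n : ℕ) : Herm C (Fin n → K) where
  f := stdHerm C n
  add_right x y z := by
    simp only [stdHerm, Pi.add_apply, mul_add, Finset.sum_add_distrib]
  smul_right a x y := by
    simp only [stdHerm, Pi.smul_apply, smul_eq_mul, Finset.mul_sum]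
    exact Finset.sum_congr rfl (fun i _ => by ring)
  symm x y := by
    simp only [stdHerm, map_sum, map_mul, C.σ_σ]
    exact Finset.sum_congr rfl (fun i _ => by ring)
  nondeg x hx := by
    classical
    funext i
    have h := hx (Pi.single i 1)
    unfold stdHerm at h
    rw [Finset.sum_eq_single i] at h
    · rw [Pi.single_eq_same, mul_one, map_eq_zero] at h
      exact h
    · intro j _ hj
      rw [Pi.single_eq_of_ne hj, mul_zero]
    · intro hi
      exact absurd (mem_univ i) hi

theorem stdH_f (x y : Fin n → K) : (stdH C n).f x y = stdHerm C n x y := rfl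

theorem stdHerm_mulVec_left (g : Matrix (Fin n) (Fin n) K) (x y : Fin n → K) :
    stdHerm C n (g *ᵥ x) y = stdHerm C n x (C.ct g *ᵥ y) := by
  simp only [stdHerm, Matrix.mulVec, dotProduct, map_sum, map_mul, Finset.sum_mul,
    Finset.mul_sum, Cj.ct, Matrix.map_apply, Matrix.transpose_apply]
  rw [Finset.sum_comm]
  refine Finset.sum_congr rfl (fun i _ => Finset.sum_congr rfl (fun j _ => by ring))

theorem InGU.stdHerm_mulVec {g : Matrix (Fin n) (Fin n) K} (hg : InGU C.q g) (x y : Fin n → K) :
    stdHerm C n (g *ᵥ x) (g *ᵥ y) = stdHerm C n x y := by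
  rw [stdHerm_mulVec_left, Matrix.mulVec_mulVec, (InGU_iff' C g).1 hg, Matrix.one_mulVec]

end GU

/-! ### the operators -/
section ops
variable {K : Type u} [Field K] [Fintype K] {n : ℕ}
variable (P : Matrix (Fin n) (Fin n) K → Prop) (x : ℚ)

theorem mem_Rset {a : K} {t : Matrix (Fin n) (Fin n) K} :
    t ∈ Rset P a ↔ P t ∧ IsRefl t ∧ t.det = a := by
  classical
  unfold Rset
  rw [Finset.mem_filter]
  simp

theorem op_sum {ι : Type*} (s : Finset ι) (a : K) (f : ι → Matrix (Fin n) (Fin n) K → ℚ)
    (c : ι → ℚ) (g : Matrix (Fin n) (Fin n) K) :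
    op P x a (fun g => ∑ i ∈ s, c i * f i g) g = ∑ i ∈ s, c i * op P x a (f i) g := by
  classical
  unfold op
  rw [Finset.sum_comm]
  simp only [mul_add, Finset.sum_add_distrib, ← Finset.mul_sum]
  congr 1
  split_ifs with h
  · rw [Finset.mul_sum]
    exact Finset.sum_congr rfl (fun i _ => by ring)
  · simp

theorem op_smul (a : K) (f : Matrix (Fin n) (Fin n) K → ℚ) (c : ℚ)
    (g : Matrix (Fin n) (Fin n) K) :
    op P x a (fun g => c * f g) g = c * op P x a f g := by
  have := op_sum P x {()} a (fun _ => f) (fun _ => c) g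
  simpa using this

theorem op_sub (a : K) (f f' : Matrix (Fin n) (Fin n) K → ℚ)
    (g : Matrix (Fin n) (Fin n) K) :
    op P x a (fun g => f g - f' g) g = op P x a f g - op P x a f' g := by
  classical
  unfold op
  rw [Finset.sum_sub_distrib]
  split_ifs <;> ring

theorem opL_sum {ι : Type*} (s : Finset ι) (l : List K) (f : ι → Matrix (Fin n) (Fin n) K → ℚ)
    (c : ι → ℚ) (g : Matrix (Fin n) (Fin n) K) :
    opL P x l (fun g => ∑ i ∈ s, c i * f i g) g = ∑ i ∈ s, c i * opL P x l (f i) g := by
  induction l generalizing f with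
  | nil => rfl
  | cons a l ih =>
    change opL P x l (op P x a (fun g => ∑ i ∈ s, c i * f i g)) g =
      ∑ i ∈ s, c i * opL P x l (op P x a (f i)) g
    have : op P x a (fun g => ∑ i ∈ s, c i * f i g) =
        fun g => ∑ i ∈ s, c i * op P x a (f i) g := by
      funext g
      exact op_sum P x s a f c g
    rw [this, ih]

theorem opL_smul (l : List K) (f : Matrix (Fin n) (Fin n) K → ℚ) (c : ℚ)
    (g : Matrix (Fin n) (Fin n) K) :
    opL P x l (fun g => c * f g) g = c * opL P x l f g := by
  have := opL_sum P x {()} l (fun _ => f) (fun _ => c) g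
  simpa using this

theorem opL_sub (l : List K) (f f' : Matrix (Fin n) (Fin n) K → ℚ)
    (g : Matrix (Fin n) (Fin n) K) :
    opL P x l (fun g => f g - f' g) g = opL P x l f g - opL P x l f' g := by
  induction l generalizing f f' with
  | nil => rfl
  | cons a l ih =>
    change opL P x l (op P x a (fun g => f g - f' g)) g =
      opL P x l (op P x a f) g - opL P x l (op P x a f') g
    have : op P x a (fun g => f g - f' g) = fun g => op P x a f g - op P x a f' g := by
      funext g
      exact op_sub P x a f f' g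
    rw [this, ih]

/-- the value at an element of the group only depends on the values on the group -/
theorem op_congr (hmul : ∀ g g', P g → P g' → P (g * g')) (a : K)
    (f f' : Matrix (Fin n) (Fin n) K → ℚ) (hff : ∀ g, P g → f g = f' g)
    (g : Matrix (Fin n) (Fin n) K) (hg : P g) : op P x a f g = op P x a f' g := by
  unfold op
  congr 1
  · refine Finset.sum_congr rfl (fun t ht => ?_)
    exact hff _ (hmul _ _ hg ((mem_Rset P).1 ht).1)
  · rw [hff g hg]

theorem opL_congr (hmul : ∀ g g', P g → P g' → P (g * g')) (l : List K)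
    (f f' : Matrix (Fin n) (Fin n) K → ℚ) (hff : ∀ g, P g → f g = f' g)
    (g : Matrix (Fin n) (Fin n) K) (hg : P g) : opL P x l f g = opL P x l f' g := by
  induction l generalizing f f' with
  | nil => exact hff g hg
  | cons a l ih =>
    change opL P x l (op P x a f) g = opL P x l (op P x a f') g
    exact ih _ _ (fun g hg => op_congr P x hmul a f f' hff g hg)

end ops

end Pool.Agent.MP_359fef_co
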