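import Pool.Agent.Lib.MP_359fef_co.TaskS
import Pool.Agent.Lib.MP_359fef_co_h40.UFinal
import Pool.Agent.Lib.MP_359fef_co_h64.TaskF
import Pool.Agent.Lib.MP_359fef_co_h64.TaskQ
import Pool.Agent.Lib.MP_359fef_co_h69.N
import Pool.Agent.Lib.MP_359fef_co_h69.O

/-!
# The coefficient formula for `GU_n(q)` (MP_359fef_co)
-/

namespace Pool.Agent.MP_359fef_co

open Finset Matrix Module

universe u

section GUFinal
variable {K : Type u} [Field K] [Fintype K] {C : Cj K}

theorem Cj.X_pow_ne_one (C : Cj K) (k : ℕ) (hk : 1 ≤ k) : C.X ^ k ≠ 1 := by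
  intro h
  have h1 : |C.X ^ k| = 1 := by rw [h, abs_one]
  have h2 := C.q_cast_pos
  have h3 : |C.X| = (C.q : ℚ) := by
    rw [C.X_eq, abs_neg, abs_of_pos (by linarith)]
  rw [abs_pow, h3] at h1
  have h4 : (1 : ℚ) < (C.q : ℚ) ^ k := one_lt_pow₀ (by linarith) (by omega)
  linarith

/-- `∏_{i<r} (z - x^i)` in powers of `z` -/
theorem prod_eq_sum_coeff (x z : ℚ) (r : ℕ) :
    ∏ i ∈ range r, (z - x ^ i) =
      ∑ k ∈ range (r + 1), (∏ i ∈ range r, (Polynomial.X - Polynomial.C (x ^ i)) :
        Polynomial ℚ).coeff k * z ^ k := by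
  have h1 : (∏ i ∈ range r, (Polynomial.X - Polynomial.C (x ^ i)) : Polynomial ℚ).natDegree
      < r + 1 := by
    rw [Polynomial.natDegree_prod_of_monic _ _ (fun i _ => Polynomial.monic_X_sub_C _)]
    simp only [Polynomial.natDegree_X_sub_C, Finset.sum_const, Finset.card_range, smul_eq_mul,
      mul_one]
    omega
  have h2 := Polynomial.eval_eq_sum_range' h1 z
  rw [← h2, Polynomial.eval_prod]
  simp

/-- the coefficient formula for the unitary groups -/
theorem guMain {n : ℕ} (hn : 1 ≤ n) (c : Matrix (Fin n) (Fin n) K)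
    (hc : InGU C.q c) (hirr : IsIrred c) (l : List K) (hl0 : l ≠ [])
    (hl : ∀ a ∈ l, a ^ (C.q + 1) = 1) (hprod : l.prod = c.det) :
    cf (InGU C.q) C.X l c = kapVal C.X n l.length := by
  classical
  obtain ⟨a, l', rfl⟩ : ∃ a l', l = a :: l' := by
    cases l with
    | nil => exact absurd rfl hl0
    | cons a l' => exact ⟨a, l', rfl⟩
  set m := l'.length with hm
  set J : ℚ := ∏ i ∈ range (n - 1), (C.X ^ (n - 1) - C.X ^ i) with hJ
  have hJ0 : J ≠ 0 := J0_ne_zero C n
  have hdet : ∀ g : Matrix (Fin n) (Fin n) K, InGU C.q g → IsUnit g.det :=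
    fun g hg => hg.isUnit_det
  have hmul : ∀ g g' : Matrix (Fin n) (Fin n) K, InGU C.q g → InGU C.q g' → InGU C.q (g * g') :=
    fun g g' h1 h2 => h1.mul h2
  have hinv : ∀ g : Matrix (Fin n) (Fin n) K, InGU C.q g → InGU C.q g⁻¹ := fun g h => h.inv
  rw [cf_eq_opL (InGU C.q) hdet hmul hinv C.X a l' c hc,
    opL_fa (InGU C.q) hdet C.X a l' c hc (by rw [← hprod, List.prod_cons]) hmul]
  set L := l'.map (·⁻¹) with hL
  have hLlen : L.length = m := by rw [hL, List.length_map]
  have hL1 : ∀ b ∈ L, b ^ (C.q + 1) = 1 := by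
    intro b hb
    rw [hL, List.mem_map] at hb
    obtain ⟨b', hb', rfl⟩ := hb
    rw [inv_pow, hl b' (List.mem_cons_of_mem _ hb'), inv_one]
  set co : ℕ → ℚ := fun k =>
    (∏ i ∈ range (n - 1), (Polynomial.X - Polynomial.C (C.X ^ i)) : Polynomial ℚ).coeff k with hco
  set Gk : ∀ k : ℕ, Submodule K ((Fin k → K) × (Fin k → K)) := fun k =>
    (LinearEquiv.refl K (Fin k → K)).toLinearMap.graph with hGk
  -- expansion
  have h1 : J * opL (InGU C.q) C.X L (fun g =>
        (if InGU C.q g ∧ IsRefl g then 1 else 0) + if g = 1 then qInt C.X n else 0) c =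
      ∑ k ∈ range (n - 1 + 1), co k * opL (InGU C.q) C.X L (KR C (Gk k)) c := by
    rw [← opL_smul, ← opL_sum]
    refine opL_congr (InGU C.q) C.X hmul L _ _ ?_ c hc
    intro g hg
    rw [T_identity hn g hg, prod_eq_sum_coeff]
    refine Finset.sum_congr rfl (fun k _ => ?_)
    rw [KR_graph_id]
  -- each term
  have hX := C.X_ne_zero
  have h2 : ∀ k ∈ range (n - 1 + 1), co k * opL (InGU C.q) C.X L (KR C (Gk k)) c =
      (C.X ^ (n - 1) * qInt C.X n) ^ m * (co k * nn C.X m k / C.X ^ (k * m)) := by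
    intro k hk
    have hk' : finrank K (Fin k → K) < n := by
      rw [finrank_fin_fun]
      rw [Finset.mem_range] at hk
      omega
    have h3 := Sprime hn c hc hirr L hL1 (Fin k → K) (stdH C k) (Gk k)
      (graph_isLag (stdH C k) _ (fun x y => rfl)) hk'
    rw [taskD1 c hc hirr _ hk', finrank_fin_fun, hLlen, mul_one,
      nt_graph (stdH C k) _ (fun x y => rfl)] at h3
    have h4 : (Nat.card {y : Fin m → (Fin k → K) // ∀ i j, ∀ r : ℕ,
        (stdH C k).f (y i) (((LinearEquiv.refl K (Fin k → K)) ^ r) (y j)) = 0} : ℚ) =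
        nn C.X m k := by
      have h5 := card_ti (stdH C k) m
      rw [finrank_fin_fun] at h5
      rw [← h5]
      congr 1
      refine Nat.card_congr (Equiv.subtypeEquivRight (fun y => ?_))
      constructor
      · intro h6 i j
        simpa using h6 i j 0
      · intro h6 i j r
        have h7 : ((LinearEquiv.refl K (Fin k → K)) ^ r) (y j) = y j := by
          have : (LinearEquiv.refl K (Fin k → K)) ^ r = 1 := one_pow r
          rw [this]
          rfl
        rw [h7]
        exact h6 i j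
    rw [h4] at h3
    have h8 : C.X ^ (k * m) ≠ 0 := pow_ne_zero _ hX
    field_simp
    linear_combination co k * h3
  have h9 : J * opL (InGU C.q) C.X L (fun g =>
        (if InGU C.q g ∧ IsRefl g then 1 else 0) + if g = 1 then qInt C.X n else 0) c =
      J * kapVal C.X n (m + 1) := by
    rw [h1, Finset.sum_congr rfl h2, ← Finset.mul_sum, taskQ C.X hX m (n - 1),
      taskQ2 C.X C.X_pow_ne_one hX n m (odd_of_irred C hn c hc hirr), mul_comm]
  rw [List.length_cons]
  exact mul_left_cancel₀ hJ0 h9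

end GUFinal

end Pool.Agent.MP_359fef_co
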