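import Pool.Agent.Lib.MP_359fef_co.Base

/-!
# U0: facts on the field `F_{q^2}`, Hermitian spaces and Gauss sums (MP_359fef_co)
-/

namespace Pool.Agent.MP_359fef_co

open Finset Matrix Module

universe u

section U0
variable {K : Type u} [Field K] [Fintype K] (C : Cj K)

theorem Cj.two_le_q : 2 ≤ C.q := by
  have h1 := C.card_eq
  have h2 : 1 < Fintype.card K := Fintype.one_lt_card
  by_contra hcon
  have : C.q = 0 ∨ C.q = 1 := by omega
  rcases this with h | h <;> rw [h] at h1 <;> omega

theorem Cj.σ_σ (x : K) : C.σ (C.σ x) = x := by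
  rw [C.σ_apply, C.σ_apply, ← pow_mul, ← sq, ← C.card_eq, FiniteField.pow_card]

/-- the involution is not the identity -/
theorem Cj.exists_ne : ∃ θ : K, C.σ θ ≠ θ := by
  classical
  by_contra hcon
  push Not at hcon
  have hq := C.two_le_q
  have hne : (Polynomial.X ^ C.q - Polynomial.X : Polynomial K) ≠ 0 :=
    FiniteField.X_pow_card_sub_X_ne_zero K (by omega)
  have hsub : (univ : Finset K) ⊆ (Polynomial.X ^ C.q - Polynomial.X : Polynomial K).roots.toFinset := by
    intro x _
    rw [Multiset.mem_toFinset, Polynomial.mem_roots hne]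
    simp only [Polynomial.IsRoot.def, Polynomial.eval_sub, Polynomial.eval_pow,
      Polynomial.eval_X]
    rw [← C.σ_apply, hcon x, sub_self]
  have h1 := Finset.card_le_card hsub
  have h2 := Multiset.toFinset_card_le (Polynomial.X ^ C.q - Polynomial.X : Polynomial K).roots
  have h3 := Polynomial.card_roots' (Polynomial.X ^ C.q - Polynomial.X : Polynomial K)
  rw [FiniteField.X_pow_card_sub_X_natDegree_eq K (by omega)] at h3
  rw [Finset.card_univ, C.card_eq] at h1
  nlinarith

theorem Cj.card_fix : Nat.card {x : K // C.σ x = x} = C.q := by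
  classical
  obtain ⟨θ, hθ⟩ := C.exists_ne
  have hd : θ - C.σ θ ≠ 0 := fun h => hθ (by rw [sub_eq_zero] at h; exact h.symm)
  have hσ1 : ∀ x : K, C.σ ((x - C.σ x) / (θ - C.σ θ)) = (x - C.σ x) / (θ - C.σ θ) := by
    intro x
    rw [map_div₀, map_sub, map_sub, C.σ_σ, C.σ_σ]
    rw [← neg_sub x, ← neg_sub θ, neg_div_neg_eq]
  let e : K ≃ {x : K // C.σ x = x} × {x : K // C.σ x = x} :=
    { toFun := fun x =>
        (⟨(x - C.σ x) / (θ - C.σ θ), hσ1 x⟩,
         ⟨x - (x - C.σ x) / (θ - C.σ θ) * θ, by
          rw [map_sub, map_mul, hσ1 x]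
          have : (x - C.σ x) / (θ - C.σ θ) * (θ - C.σ θ) = x - C.σ x := div_mul_cancel₀ _ hd
          linear_combination this⟩)
      invFun := fun p => p.2.1 + p.1.1 * θ
      left_inv := by
        intro x
        simp
      right_inv := by
        rintro ⟨⟨b, hb⟩, ⟨a, ha⟩⟩
        have h1 : (a + b * θ - C.σ (a + b * θ)) / (θ - C.σ θ) = b := by
          rw [map_add, map_mul, ha, hb]
          field_simp
          ring
        simp only [Prod.mk.injEq, Subtype.mk.injEq]
        rw [h1]
        exact ⟨rfl, by ring⟩ }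
  have h := Nat.card_congr e
  rw [Nat.card_prod, Nat.card_eq_fintype_card, C.card_eq] at h
  have h' : C.q * C.q = Nat.card {x : K // C.σ x = x} * Nat.card {x : K // C.σ x = x} := by
    rw [← h]; ring
  exact (Nat.mul_self_inj.1 h').symm

theorem Cj.exists_tr (t : K) (ht : C.σ t = t) : ∃ x : K, x + C.σ x = t := by
  have h : ∃ z : K, z + C.σ z ≠ 0 := by
    by_contra hcon
    push Not at hcon
    obtain ⟨θ, hθ⟩ := C.exists_ne
    have h1 := hcon 1
    rw [map_one] at h1
    have h2 := hcon θ
    apply hθ
    have h3 : θ + θ = 0 := by rw [← two_mul, ← one_add_one_eq_two, h1, zero_mul]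
    calc C.σ θ = (θ + C.σ θ) - θ := by ring
      _ = -θ := by rw [h2]; ring
      _ = θ := by rw [neg_eq_iff_add_eq_zero, h3]
  obtain ⟨z, hz⟩ := h
  refine ⟨z * (t / (z + C.σ z)), ?_⟩
  have h1 : C.σ (t / (z + C.σ z)) = t / (z + C.σ z) := by
    rw [map_div₀, map_add, C.σ_σ, ht, add_comm]
  rw [map_mul, h1, ← add_mul, mul_div_cancel₀ _ hz]

/-- fibre of the trace as a coset of the skew elements -/
noncomputable def Cj.trEquiv (t x0 : K) (hx0 : x0 + C.σ x0 = t) :
    {x : K // x + C.σ x = t} ≃ {x : K // C.σ x = -x} where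
  toFun x := ⟨x.1 - x0, by
    have h := x.2
    rw [map_sub]
    linear_combination h - hx0⟩
  invFun s := ⟨s.1 + x0, by
    have h := s.2
    rw [map_add, h]
    linear_combination hx0⟩
  left_inv x := by simp
  right_inv s := by simp

theorem Cj.card_skew : Nat.card {x : K // C.σ x = -x} = C.q := by
  classical
  -- the trace has fibres of equal size over the q fixed elements
  have hfix := C.card_fix
  have e : K ≃ Σ t : {t : K // C.σ t = t}, {x : K // x + C.σ x = t.1} :=
    { toFun := fun x => ⟨⟨x + C.σ x, by rw [map_add, C.σ_σ, add_comm]⟩, ⟨x, rfl⟩⟩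
      invFun := fun p => p.2.1
      left_inv := fun x => rfl
      right_inv := by
        rintro ⟨⟨t, ht⟩, ⟨x, hx⟩⟩
        simp only at hx
        subst hx
        rfl }
  have h := Nat.card_congr e
  rw [Nat.card_sigma] at h
  have h2 : ∀ t : {t : K // C.σ t = t},
      Nat.card {x : K // x + C.σ x = t.1} = Nat.card {x : K // C.σ x = -x} := by
    intro t
    obtain ⟨x0, hx0⟩ := C.exists_tr t.1 t.2
    exact Nat.card_congr (C.trEquiv t.1 x0 hx0)
  rw [Finset.sum_congr rfl (fun t _ => h2 t), Finset.sum_const, Finset.card_univ,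
    ← Nat.card_eq_fintype_card, hfix, Nat.card_eq_fintype_card, C.card_eq, smul_eq_mul] at h
  have hq := C.two_le_q
  have : C.q * C.q = C.q * Nat.card {x : K // C.σ x = -x} := by rw [← h]; ring
  exact (Nat.eq_of_mul_eq_mul_left (by omega) this).symm

/-- the trace: fibres over fixed elements have size `q` -/
theorem Cj.card_tr (t : K) (ht : C.σ t = t) : Nat.card {x : K // x + C.σ x = t} = C.q := by
  obtain ⟨x0, hx0⟩ := C.exists_tr t ht
  rw [Nat.card_congr (C.trEquiv t x0 hx0), C.card_skew]

theorem Cj.norm_fix (x : K) : C.σ (x * C.σ x) = x * C.σ x := by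
  rw [map_mul, C.σ_σ, mul_comm]

/-- the norm: fibres over nonzero fixed elements have size `q+1` -/
theorem Cj.card_norm (t : K) (ht : C.σ t = t) (h0 : t ≠ 0) :
    Nat.card {x : K // x * C.σ x = t} = C.q + 1 := by
  classical
  have hq := C.two_le_q
  -- each fibre has at most q+1 elements
  have hle : ∀ t : K, Nat.card {x : K // x * C.σ x = t} ≤ C.q + 1 := by
    intro t
    have hne : (Polynomial.X ^ (C.q + 1) - Polynomial.C t : Polynomial K) ≠ 0 :=
      Polynomial.X_pow_sub_C_ne_zero (by omega) t
    rw [Nat.card_eq_fintype_card, Fintype.card_subtype]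
    have hsub : (univ.filter (fun x : K => x * C.σ x = t)) ⊆
        (Polynomial.X ^ (C.q + 1) - Polynomial.C t : Polynomial K).roots.toFinset := by
      intro x hx
      rw [Finset.mem_filter] at hx
      rw [Multiset.mem_toFinset, Polynomial.mem_roots hne]
      simp only [Polynomial.IsRoot.def, Polynomial.eval_sub, Polynomial.eval_pow,
        Polynomial.eval_X, Polynomial.eval_C]
      rw [← hx.2, C.σ_apply, pow_succ']
      ring
    refine (Finset.card_le_card hsub).trans ?_
    refine (Multiset.toFinset_card_le _).trans ?_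
    refine (Polynomial.card_roots' _).trans ?_
    rw [Polynomial.natDegree_X_pow_sub_C]
  -- total count
  have e : {x : K // x ≠ 0} ≃
      Σ t : {t : K // C.σ t = t ∧ t ≠ 0}, {x : K // x * C.σ x = t.1} :=
    { toFun := fun x => ⟨⟨x.1 * C.σ x.1, C.norm_fix x.1, mul_ne_zero x.2 (by
          rw [Ne, map_eq_zero]; exact x.2)⟩, ⟨x.1, rfl⟩⟩
      invFun := fun p => ⟨p.2.1, by
        intro h
        have h2 := p.2.2
        rw [h, zero_mul] at h2
        exact p.1.2.2 h2.symm⟩
      left_inv := fun x => rfl
      right_inv := by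
        rintro ⟨⟨t, ht⟩, ⟨x, hx⟩⟩
        simp only at hx
        subst hx
        rfl }
  have h := Nat.card_congr e
  rw [Nat.card_sigma] at h
  have hc1 : Nat.card {x : K // x ≠ 0} = C.q ^ 2 - 1 := by
    rw [Nat.card_eq_fintype_card, Fintype.card_subtype_compl, C.card_eq]
    simp
  have hc2 : Fintype.card {t : K // C.σ t = t ∧ t ≠ 0} = C.q - 1 := by
    have h1 : Fintype.card {t : K // C.σ t = t ∧ t ≠ 0} =
        (univ.filter (fun t : K => C.σ t = t)).card - 1 := by
      rw [Fintype.card_subtype]
      have : (univ.filter (fun t : K => C.σ t = t ∧ t ≠ 0)) =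
          (univ.filter (fun t : K => C.σ t = t)).erase 0 := by
        ext x
        simp only [mem_filter, mem_univ, true_and, mem_erase]
        tauto
      rw [this, Finset.card_erase_of_mem (by simp)]
    rw [h1, ← Fintype.card_subtype, ← Nat.card_eq_fintype_card, C.card_fix]
  rw [hc1] at h
  -- if one fibre were smaller, the sum would be too small
  by_contra hne
  have hlt : Nat.card {x : K // x * C.σ x = t} < C.q + 1 := lt_of_le_of_ne (hle t) hne
  have hsum : ∑ t : {t : K // C.σ t = t ∧ t ≠ 0}, Nat.card {x : K // x * C.σ x = t.1} <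
      ∑ _t : {t : K // C.σ t = t ∧ t ≠ 0}, (C.q + 1) :=
    Finset.sum_lt_sum (fun t _ => hle t.1) ⟨⟨t, ht, h0⟩, mem_univ _, hlt⟩
  rw [← h, Finset.sum_const, Finset.card_univ, hc2, smul_eq_mul] at hsum
  have : C.q ^ 2 - 1 = (C.q - 1) * (C.q + 1) := by
    obtain ⟨r, hr⟩ : ∃ r, C.q = r + 1 := ⟨C.q - 1, by omega⟩
    rw [hr]
    simp only [Nat.add_sub_cancel]
    have : (r + 1) ^ 2 = r * (r + 1 + 1) + 1 := by ring
    omega
  omega

theorem Cj.exists_norm (t : K) (ht : C.σ t = t) : ∃ x : K, x * C.σ x = t := by
  by_cases h0 : t = 0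
  · exact ⟨0, by rw [h0, zero_mul]⟩
  · have h := C.card_norm t ht h0
    have : Nonempty {x : K // x * C.σ x = t} := by
      by_contra hcon
      rw [not_nonempty_iff] at hcon
      rw [Nat.card_of_isEmpty] at h
      omega
    obtain ⟨x, hx⟩ := this
    exact ⟨x, hx⟩

theorem Cj.norm_one_iff (a : K) : a ^ (C.q + 1) = 1 ↔ a * C.σ a = 1 := by
  rw [C.σ_apply, pow_succ']

/-- Hilbert 90 -/
theorem Cj.hilbert90 (a : K) (ha : a * C.σ a = 1) : ∃ b : K, b ≠ 0 ∧ C.σ b = -(a * b) := by
  have ha0 : a ≠ 0 := by rintro rfl; simp at ha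
  have hσa : C.σ a = a⁻¹ := eq_inv_of_mul_eq_one_right ha
  -- b = z - a⁻¹ σ z
  have key : ∀ z : K, C.σ (z - a⁻¹ * C.σ z) = -(a * (z - a⁻¹ * C.σ z)) := by
    intro z
    rw [map_sub, map_mul, C.σ_σ, map_inv₀, hσa, inv_inv]
    field_simp
    ring
  by_contra hcon
  push Not at hcon
  have hz : ∀ z : K, z - a⁻¹ * C.σ z = 0 := by
    intro z
    by_contra hz
    exact hcon _ hz (key z)
  have h1 := hz 1
  rw [map_one, mul_one, sub_eq_zero] at h1
  obtain ⟨θ, hθ⟩ := C.exists_ne
  have h2 := hz θ
  rw [← h1, one_mul, sub_eq_zero] at h2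
  exact hθ h2.symm

/-- the line `{μ : μ̄ = -aμ}` has `q` elements for `a` of norm one -/
theorem Cj.card_line (a : K) (ha : a * C.σ a = 1) :
    Nat.card {x : K // C.σ x = -(a * x)} = C.q := by
  obtain ⟨b, hb0, hb⟩ := C.hilbert90 a ha
  rw [← C.card_fix]
  refine Nat.card_congr ?_
  have ha0 : a ≠ 0 := by rintro rfl; simp at ha
  exact
    { toFun := fun x => ⟨x.1 / b, by
        rw [map_div₀, x.2, hb, neg_div_neg_eq]
        field_simp⟩
      invFun := fun y => ⟨y.1 * b, by
        rw [map_mul, y.2, hb]; ring⟩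
      left_inv := fun x => by
        simp only [div_mul_cancel₀ _ hb0]
      right_inv := fun y => by
        simp only [mul_div_cancel_right₀ _ hb0] }

variable {C} {W : Type u} [AddCommGroup W] [Module K W] (H : Herm C W)

theorem Herm.add_left (x y z : W) : H.f (x + y) z = H.f x z + H.f y z := by
  rw [H.symm z (x + y), H.add_right, map_add, ← H.symm, ← H.symm]

theorem Herm.smul_left (a : K) (x y : W) : H.f (a • x) y = C.σ a * H.f x y := by
  rw [H.symm y (a • x), H.smul_right, map_mul, ← H.symm]

theorem Herm.zero_right (x : W) : H.f x 0 = 0 := by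
  have := H.smul_right 0 x 0
  simpa using this

theorem Herm.zero_left (x : W) : H.f 0 x = 0 := by
  rw [H.symm x 0, H.zero_right, map_zero]

theorem Herm.neg_right (x y : W) : H.f x (-y) = - H.f x y := by
  have := H.smul_right (-1) x y
  simpa using this

theorem Herm.neg_left (x y : W) : H.f (-x) y = - H.f x y := by
  rw [H.symm y (-x), H.neg_right, map_neg, ← H.symm]

theorem Herm.sub_right (x y z : W) : H.f x (y - z) = H.f x y - H.f x z := by
  rw [sub_eq_add_neg, H.add_right, H.neg_right, sub_eq_add_neg]

theorem Herm.sub_left (x y z : W) : H.f (x - y) z = H.f x z - H.f y z := by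
  rw [sub_eq_add_neg, H.add_left, H.neg_left, sub_eq_add_neg]

theorem Herm.sum_right {ι : Type*} (s : Finset ι) (x : W) (y : ι → W) :
    H.f x (∑ i ∈ s, y i) = ∑ i ∈ s, H.f x (y i) := by
  classical
  induction s using Finset.induction_on with
  | empty => simp [H.zero_right]
  | insert a s ha ih => rw [Finset.sum_insert ha, Finset.sum_insert ha, H.add_right, ih]

theorem Herm.sum_left {ι : Type*} (s : Finset ι) (x : W) (y : ι → W) :
    H.f (∑ i ∈ s, y i) x = ∑ i ∈ s, H.f (y i) x := by
  classical
  induction s using Finset.induction_on with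
  | empty => simp [H.zero_left]
  | insert a s ha ih => rw [Finset.sum_insert ha, Finset.sum_insert ha, H.add_left, ih]

theorem Herm.eq_zero_comm {x y : W} : H.f x y = 0 ↔ H.f y x = 0 := by
  constructor
  · intro h; rw [H.symm x y, h, map_zero]
  · intro h; rw [H.symm y x, h, map_zero]

/-- the linear functional `f x ·` -/
def Herm.toDual (H : Herm C W) (x : W) : Module.Dual K W where
  toFun y := H.f x y
  map_add' := H.add_right x
  map_smul' a y := by simp [H.smul_right]

@[simp] theorem Herm.toDual_apply (x y : W) : H.toDual x y = H.f x y := rfl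

theorem Herm.toDual_injective : Function.Injective H.toDual := by
  intro x y hxy
  have : ∀ z, H.f (x - y) z = 0 := by
    intro z
    rw [H.sub_left, sub_eq_zero]
    exact congrArg (fun φ => φ z) hxy
  exact sub_eq_zero.1 (H.nondeg _ this)

/-- the orthogonal complement -/
def Herm.perp (H : Herm C W) (D : Submodule K W) : Submodule K W where
  carrier := {y | ∀ x ∈ D, H.f x y = 0}
  add_mem' := by
    intro a b ha hb x hx
    rw [H.add_right, ha x hx, hb x hx, add_zero]
  zero_mem' := by
    intro x _
    have := H.smul_right 0 x 0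
    simpa using this
  smul_mem' := by
    intro r a ha x hx
    rw [H.smul_right, ha x hx, mul_zero]

theorem Herm.mem_perp {D : Submodule K W} {y : W} : y ∈ H.perp D ↔ ∀ x ∈ D, H.f x y = 0 :=
  Iff.rfl

/-- the image of `D` in the dual space -/
def Herm.dualImage (H : Herm C W) (D : Submodule K W) : Submodule K (Module.Dual K W) where
  carrier := H.toDual '' D
  add_mem' := by
    rintro _ _ ⟨x, hx, rfl⟩ ⟨y, hy, rfl⟩
    refine ⟨x + y, D.add_mem hx hy, ?_⟩
    ext z
    simp [H.add_left]
  zero_mem' := ⟨0, D.zero_mem, by ext z; simp [H.zero_left]⟩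
  smul_mem' := by
    rintro r _ ⟨x, hx, rfl⟩
    refine ⟨C.σ r • x, D.smul_mem _ hx, ?_⟩
    ext z
    simp [H.smul_left, C.σ_σ]

theorem Herm.finrank_dualImage [Finite W] (D : Submodule K W) :
    finrank K (H.dualImage D) = finrank K D := by
  classical
  have h1 : Nat.card (H.dualImage D) = Nat.card D := by
    refine Nat.card_congr ?_
    refine (Equiv.ofBijective (fun x : D => (⟨H.toDual x.1, ⟨x.1, x.2, rfl⟩⟩ : H.dualImage D))
      ⟨?_, ?_⟩).symm
    · intro x y hxy
      apply Subtype.ext
      exact H.toDual_injective (congrArg Subtype.val hxy)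
    · rintro ⟨_, ⟨x, hx, rfl⟩⟩
      exact ⟨⟨x, hx⟩, rfl⟩
  have : Fintype W := Fintype.ofFinite W
  have : Module.Finite K W := Module.Finite.of_finite
  have h2 := Module.natCard_eq_pow_finrank (K := K) (V := H.dualImage D)
  have h3 := Module.natCard_eq_pow_finrank (K := K) (V := D)
  rw [h1, h3] at h2
  exact (Nat.pow_right_injective (by
    rw [Nat.card_eq_fintype_card]; exact Fintype.one_lt_card) h2).symm

theorem Herm.finrank_perp [Finite W] (D : Submodule K W) :
    finrank K D + finrank K (H.perp D) = finrank K W := by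
  have : Module.Finite K W := Module.Finite.of_finite
  have h1 := Subspace.finrank_add_finrank_dualCoannihilator_eq (H.dualImage D)
  rw [H.finrank_dualImage] at h1
  have h2 : (H.dualImage D).dualCoannihilator = H.perp D := by
    ext y
    rw [Submodule.mem_dualCoannihilator, H.mem_perp]
    constructor
    · intro h x hx
      exact h (H.toDual x) ⟨x, hx, rfl⟩
    · rintro h _ ⟨x, hx, rfl⟩
      exact h x hx
  rw [h2] at h1
  exact h1

theorem Herm.perp_perp [Finite W] (D : Submodule K W) : H.perp (H.perp D) = D := by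
  have : Module.Finite K W := Module.Finite.of_finite
  have h1 := H.finrank_perp D
  have h2 := H.finrank_perp (H.perp D)
  have hle : D ≤ H.perp (H.perp D) := by
    intro x hx y hy
    exact (H.eq_zero_comm).1 (hy x hx)
  exact (Submodule.eq_of_le_of_finrank_eq hle (by omega)).symm

theorem Herm.perp_anti {D E : Submodule K W} (h : D ≤ E) : H.perp E ≤ H.perp D :=
  fun _ hy x hx => hy x (h hx)

theorem Herm.card_perp [Finite W] (D : Submodule K W) :
    Nat.card D * Nat.card (H.perp D) = Nat.card W := by
  have : Module.Finite K W := Module.Finite.of_finite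
  rw [Module.natCard_eq_pow_finrank (K := K) (V := D),
    Module.natCard_eq_pow_finrank (K := K) (V := H.perp D),
    Module.natCard_eq_pow_finrank (K := K) (V := W), ← pow_add, H.finrank_perp D]

/-! ### characters and Gauss sums -/

/-- additive character of `K`, nontrivial on the elements with `x̄ = -x` -/
theorem Cj.exists_char (C : Cj K) : ∃ ψ : AddChar K ℂ, ∃ s : K, C.σ s = -s ∧ ψ s ≠ 1 := by
  have h := C.card_skew
  have hq := C.two_le_q
  have : Nontrivial {x : K // C.σ x = -x} := by
    rw [← Finite.one_lt_card_iff_nontrivial, h]; omega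
  obtain ⟨s, hs⟩ := _root_.exists_ne (⟨0, by simp⟩ : {x : K // C.σ x = -x})
  have hs0 : s.1 ≠ 0 := by
    intro h0
    apply hs
    apply Subtype.ext
    exact h0
  obtain ⟨ψ, hψ⟩ := AddChar.exists_apply_ne_zero.2 hs0
  exact ⟨ψ, s.1, s.2, hψ⟩

omit [Fintype K] in
open Classical in
/-- a nontrivial character sums to zero over a subgroup -/
theorem sum_char_subgroup (ψ : AddChar K ℂ) (S : Finset K) (s0 : K)
    (hadd : ∀ x, x ∈ S ↔ s0 + x ∈ S) (hne : ψ s0 ≠ 1) : ∑ x ∈ S, ψ x = 0 := by
  have h1 : ∑ x ∈ S, ψ x = ∑ x ∈ S, ψ (s0 + x) := by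
    refine (Finset.sum_bij (fun x _ => s0 + x) ?_ ?_ ?_ ?_).symm
    · intro x hx; exact (hadd x).1 hx
    · intro x _ y _ hxy; exact add_left_cancel hxy
    · intro y hy
      refine ⟨y - s0, ?_, by ring⟩
      rw [hadd]
      simpa using hy
    · intro x _; rfl
  simp only [AddChar.map_add_eq_mul] at h1
  rw [← Finset.mul_sum] at h1
  have h2 : (ψ s0 - 1) * ∑ x ∈ S, ψ x = 0 := by
    rw [sub_mul, one_mul, ← h1, sub_self]
  rcases mul_eq_zero.1 h2 with h | h
  · exact absurd (sub_eq_zero.1 h) hne
  · exact h

open Classical in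
/-- `∑_{s̄ = -s} ψ(s t) = q [t = 0]` for fixed `t` -/
theorem sum_skew (ψ : AddChar K ℂ) (hψ : ∃ s : K, C.σ s = -s ∧ ψ s ≠ 1) (t : K)
    (ht : C.σ t = t) :
    ∑ s ∈ univ.filter (fun s : K => C.σ s = -s), ψ (s * t) = if t = 0 then (C.q : ℂ) else 0 := by
  obtain ⟨s0, hs0, hψ0⟩ := hψ
  split_ifs with h
  · rw [h]
    simp only [mul_zero, AddChar.map_zero_eq_one, Finset.sum_const, nsmul_eq_mul, mul_one]
    rw [← Fintype.card_subtype, ← Nat.card_eq_fintype_card, C.card_skew]
  · have h1 : ∑ s ∈ univ.filter (fun s : K => C.σ s = -s), ψ (s * t) =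
        ∑ s ∈ univ.filter (fun s : K => C.σ s = -s), ψ s := by
      refine Finset.sum_bij' (fun s _ => s * t) (fun s _ => s / t) ?_ ?_ ?_ ?_ ?_
      · intro s hs
        rw [Finset.mem_filter] at hs ⊢
        refine ⟨mem_univ _, ?_⟩
        rw [map_mul, hs.2, ht, neg_mul]
      · intro s hs
        rw [Finset.mem_filter] at hs ⊢
        refine ⟨mem_univ _, ?_⟩
        rw [map_div₀, hs.2, ht, neg_div]
      · intro s _; exact mul_div_cancel_right₀ _ h
      · intro s _; exact div_mul_cancel₀ _ h
      · intro s _; rfl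
    rw [h1]
    refine sum_char_subgroup ψ _ s0 ?_ hψ0
    intro x
    simp only [mem_filter, mem_univ, true_and, map_add, hs0]
    constructor
    · intro hx; rw [hx]; ring
    · intro hx; linear_combination hx

open Classical in
/-- `∑_{t̄ = t} ψ(s t) = 0` for `s` skew and nonzero -/
theorem sum_fix (ψ : AddChar K ℂ) (hψ : ∃ s : K, C.σ s = -s ∧ ψ s ≠ 1) (s : K)
    (hs : C.σ s = -s) (hs0 : s ≠ 0) :
    ∑ t ∈ univ.filter (fun t : K => C.σ t = t), ψ (s * t) = 0 := by
  have h := sum_skew (C := C) ψ hψ 1 (map_one _)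
  rw [if_neg one_ne_zero] at h
  rw [← h]
  refine Finset.sum_bij' (fun t _ => s * t) (fun t _ => t / s) ?_ ?_ ?_ ?_ ?_
  · intro t ht
    rw [Finset.mem_filter] at ht ⊢
    refine ⟨mem_univ _, ?_⟩
    rw [map_mul, hs, ht.2, neg_mul]
  · intro t ht
    rw [Finset.mem_filter] at ht ⊢
    refine ⟨mem_univ _, ?_⟩
    rw [map_div₀, hs, ht.2, neg_div_neg_eq]
  · intro t _; field_simp
  · intro t _; field_simp
  · intro t _; rw [mul_one]

open Classical in
/-- the one-dimensional Gauss sum -/
theorem gauss_one (ψ : AddChar K ℂ) (hψ : ∃ s : K, C.σ s = -s ∧ ψ s ≠ 1) (s : K)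
    (hs : C.σ s = -s) (hs0 : s ≠ 0) : ∑ x : K, ψ (s * (x * C.σ x)) = -(C.q : ℂ) := by
  have hfib : ∑ x : K, ψ (s * (x * C.σ x)) =
      ∑ t ∈ univ.filter (fun t : K => C.σ t = t),
        ∑ x ∈ univ.filter (fun x : K => x * C.σ x = t), ψ (s * (x * C.σ x)) := by
    refine (Finset.sum_fiberwise_of_maps_to (g := fun x : K => x * C.σ x) ?_
      (fun x => ψ (s * (x * C.σ x)))).symm
    intro x _
    rw [Finset.mem_filter]
    exact ⟨mem_univ _, C.norm_fix x⟩
  rw [hfib]
  have hinner : ∀ t ∈ univ.filter (fun t : K => C.σ t = t),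
      ∑ x ∈ univ.filter (fun x : K => x * C.σ x = t), ψ (s * (x * C.σ x)) =
        (if t = 0 then -(C.q : ℂ) else 0) + ((C.q : ℂ) + 1) * ψ (s * t) := by
    intro t ht
    rw [Finset.mem_filter] at ht
    have h1 : ∑ x ∈ univ.filter (fun x : K => x * C.σ x = t), ψ (s * (x * C.σ x)) =
        ∑ _x ∈ univ.filter (fun x : K => x * C.σ x = t), ψ (s * t) := by
      refine Finset.sum_congr rfl ?_
      intro x hx
      rw [(Finset.mem_filter.1 hx).2]
    rw [h1, Finset.sum_const, nsmul_eq_mul]
    by_cases h0 : t = 0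
    · have : univ.filter (fun x : K => x * C.σ x = t) = {0} := by
        ext x
        simp [h0]
      rw [this, h0]
      simp
    · rw [if_neg h0, ← Fintype.card_subtype, ← Nat.card_eq_fintype_card, C.card_norm t ht.2 h0]
      push_cast
      ring
  rw [Finset.sum_congr rfl hinner, Finset.sum_add_distrib, ← Finset.mul_sum, sum_fix ψ hψ s hs hs0,
    mul_zero, add_zero, Finset.sum_ite_eq', if_pos]
  simp

/-- Gauss sum of a skew-Hermitian form `s` (`s(y,x) = -conj s(x,y)`), possibly degenerate -/
theorem gauss (C : Cj K) (ψ : AddChar K ℂ) (hψ : ∃ s : K, C.σ s = -s ∧ ψ s ≠ 1)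
    (M : Type u) [AddCommGroup M] [Module K M] [Fintype M] (s : M → M → K)
    (hadd : ∀ x y z, s x (y + z) = s x y + s x z) (hsmul : ∀ (a : K) x y, s x (a • y) = a * s x y)
    (hskew : ∀ x y, s y x = - C.σ (s x y)) (R : Submodule K M)
    (hR : ∀ x, x ∈ R ↔ ∀ y, s y x = 0) :
    ∑ v : M, ψ (s v v) = (-(C.q : ℂ)) ^ (finrank K M + finrank K R) := by
  classical
  -- induction on the dimension
  suffices hmain : ∀ (d : ℕ) (M : Type u) [AddCommGroup M] [Module K M] [Fintype M]
      (s : M → M → K) (_ : ∀ x y z, s x (y + z) = s x y + s x z)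
      (_ : ∀ (a : K) x y, s x (a • y) = a * s x y)
      (_ : ∀ x y, s y x = - C.σ (s x y)) (R : Submodule K M)
      (_ : ∀ x, x ∈ R ↔ ∀ y, s y x = 0), finrank K M = d →
      ∑ v : M, ψ (s v v) = (-(C.q : ℂ)) ^ (finrank K M + finrank K R) from
    hmain _ M s hadd hsmul hskew R hR rfl
  intro d
  induction d with
  | zero =>
    intro M _ _ _ s hadd hsmul hskew R hR hd
    have : Module.Finite K M := Module.Finite.of_finite
    have hsub : Subsingleton M := Module.finrank_zero_iff.1 hd
    have hR0 : finrank K R = 0 := by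
      have := Submodule.finrank_le R
      omega
    rw [hd, hR0]
    have h0 : ∀ v : M, v = 0 := fun v => Subsingleton.elim _ _
    have hs0 : ∀ v : M, s v v = 0 := by
      intro v
      have := hsmul 0 v v
      simp only [zero_smul, zero_mul] at this
      rw [← this]
      congr 1
      exact h0 v
    rw [Finset.sum_congr rfl (fun v _ => by rw [hs0 v])]
    simp only [AddChar.map_zero_eq_one, Finset.sum_const, Finset.card_univ]
    rw [Fintype.card_eq_one_iff.2 ⟨0, fun v => h0 v⟩]
    simp
  | succ d ih =>
    intro M _ _ _ s hadd hsmul hskew R hR hd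
    have hfin : Module.Finite K M := Module.Finite.of_finite
    -- basic rules
    have hadd' : ∀ x y z, s (x + y) z = s x z + s y z := by
      intro x y z
      rw [hskew z (x + y), hadd, map_add, neg_add, ← hskew, ← hskew]
    have hsmul' : ∀ (a : K) x y, s (a • x) y = C.σ a * s x y := by
      intro a x y
      rw [hskew y (a • x), hsmul, map_mul, hskew y x]
      ring
    have hzero : ∀ x, s x 0 = 0 := fun x => by simpa using hsmul 0 x 0
    by_cases hall : ∀ v, s v v = 0
    · -- the form is zero
      have hz : ∀ x y, s x y = 0 := by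
        intro x y
        by_contra hne
        -- choose a with a * s x y + conj-type term nonzero
        have h1 : ∀ a : K, a * s x y - C.σ (a * s x y) = 0 := by
          intro a
          have h2 := hall (x + a • y)
          rw [hadd, hadd', hadd', hsmul, hsmul', hsmul, hsmul', hall x, hall y] at h2
          rw [map_mul]
          have h3 := hskew x y
          rw [h3] at h2
          linear_combination h2
        obtain ⟨θ, hθ⟩ := C.exists_ne
        have h2 := h1 (θ / s x y)
        rw [div_mul_cancel₀ _ hne, sub_eq_zero] at h2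
        exact hθ h2.symm
      have hRtop : R = ⊤ := by
        rw [eq_top_iff]
        intro x _
        rw [hR]
        intro y
        exact hz y x
      rw [hRtop, finrank_top]
      rw [Finset.sum_congr rfl (fun v _ => by rw [hz v v])]
      simp only [AddChar.map_zero_eq_one, Finset.sum_const, Finset.card_univ, nsmul_eq_mul,
        mul_one]
      rw [Module.card_eq_pow_finrank (K := K) (V := M), C.card_eq, ← two_mul, pow_mul]
      push_cast
      ring
    · push Not at hall
      obtain ⟨v0, hv0⟩ := hall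
      -- orthogonal complement of v0
      let P : Submodule K M :=
        { carrier := {y | s v0 y = 0}
          add_mem' := by
            intro a b ha hb
            change s v0 a = 0 at ha
            change s v0 b = 0 at hb
            change s v0 (a + b) = 0
            rw [hadd, ha, hb, add_zero]
          zero_mem' := hzero v0
          smul_mem' := by
            intro r a ha
            change s v0 a = 0 at ha
            change s v0 (r • a) = 0
            rw [hsmul, ha, mul_zero] }
      have hPmem : ∀ y, y ∈ P ↔ s v0 y = 0 := fun y => Iff.rfl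
      have hPsym : ∀ y, y ∈ P → s y v0 = 0 := by
        intro y hy
        rw [hskew v0 y, (hPmem y).1 hy, map_zero, neg_zero]
      have hs0skew : C.σ (s v0 v0) = - s v0 v0 := by
        have := hskew v0 v0
        rw [eq_neg_iff_add_eq_zero] at this ⊢
        rw [add_comm]; exact this
      -- decomposition M ≃ K × P
      let e : M ≃ K × P :=
        { toFun := fun x => (s v0 x / s v0 v0, ⟨x - (s v0 x / s v0 v0) • v0, by
            rw [hPmem]
            have h1 : s v0 (-((s v0 x / s v0 v0) • v0)) = -(s v0 x) := by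
              have := hsmul (-(s v0 x / s v0 v0)) v0 v0
              rw [neg_smul] at this
              rw [this]
              field_simp
            rw [sub_eq_add_neg, hadd, h1, add_neg_cancel]⟩)
          invFun := fun p => p.1 • v0 + p.2.1
          left_inv := fun x => by simp
          right_inv := by
            rintro ⟨a, ⟨y, hy⟩⟩
            have h1 : s v0 (a • v0 + y) / s v0 v0 = a := by
              rw [hadd, hsmul, (hPmem y).1 hy, add_zero, mul_div_cancel_right₀ _ hv0]
            simp only [Prod.mk.injEq]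
            refine ⟨h1, ?_⟩
            apply Subtype.ext
            simp only [h1]
            simp }
      have hval : ∀ p : K × P, s (e.symm p) (e.symm p) =
          s v0 v0 * (p.1 * C.σ p.1) + s p.2.1 p.2.1 := by
        rintro ⟨a, ⟨y, hy⟩⟩
        change s (a • v0 + y) (a • v0 + y) = _
        rw [hadd, hadd', hadd', hsmul, hsmul', hsmul', hsmul, (hPmem y).1 hy, hPsym y hy]
        ring
      have hsum : ∑ v : M, ψ (s v v) =
          (∑ a : K, ψ (s v0 v0 * (a * C.σ a))) * ∑ y : P, ψ (s y.1 y.1) := by
        rw [← e.symm.sum_comp]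
        rw [Finset.sum_congr rfl (fun p _ => by rw [hval p, AddChar.map_add_eq_mul])]
        rw [Fintype.sum_prod_type, Finset.sum_mul_sum]
      -- dimension of P
      have hdimP : finrank K P = d := by
        have h1 : Fintype.card M = Fintype.card K * Fintype.card P := by
          rw [← Fintype.card_prod]
          exact Fintype.card_congr e
        rw [Module.card_eq_pow_finrank (K := K) (V := M), hd,
          Module.card_eq_pow_finrank (K := K) (V := P), ← pow_succ'] at h1
        have := Nat.pow_right_injective (Fintype.one_lt_card (α := K)) h1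
        omega
      -- the radical of P
      let R' : Submodule K P := R.comap P.subtype
      have hRP : R ≤ P := by
        intro x hx
        rw [hPmem]
        exact (hR x).1 hx v0
      have hR' : ∀ x : P, x ∈ R' ↔ ∀ y : P, s y.1 x.1 = 0 := by
        intro x
        change x.1 ∈ R ↔ _
        rw [hR]
        constructor
        · intro h y; exact h y.1
        · intro h y
          have hy := (e.symm_apply_apply y).symm
          change y = (e y).1 • v0 + (e y).2.1 at hy
          rw [hy, hadd', hsmul', (hPmem x.1).1 x.2, h (e y).2, mul_zero, add_zero]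
      have hdimR : finrank K R' = finrank K R := by
        exact LinearEquiv.finrank_eq (Submodule.comapSubtypeEquivOfLe hRP)
      have hih := ih P (fun x y => s x.1 y.1) (fun x y z => hadd _ _ _)
        (fun a x y => hsmul _ _ _) (fun x y => hskew _ _) R' hR' hdimP
      rw [hsum, gauss_one ψ hψ _ hs0skew hv0, hih, hdimP, hdimR, hd]
      rw [← pow_succ']
      congr 1
      omega

theorem Cj.X_eq (C : Cj K) : C.X = -(C.q : ℚ) := rfl

open Classical in
/-- number of isotropic vectors in `D^⊥`, `D` totally isotropic -/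
theorem Herm.card_iso_perp [Finite W] (D : Submodule K W) (hD : ∀ x ∈ D, ∀ y ∈ D, H.f x y = 0) :
    (C.q : ℚ) * (Nat.card {w : H.perp D // H.f w.1 w.1 = 0} : ℚ) =
      (Nat.card (H.perp D) : ℚ) + (C.q - 1) * C.X ^ finrank K W := by
  have : Fintype W := Fintype.ofFinite W
  obtain ⟨ψ, hψ⟩ := C.exists_char
  have hDP : D ≤ H.perp D := fun y hy x hx => hD x hx y hy
  -- the sum over skew s and w
  have key : ∑ w : H.perp D, ∑ s ∈ univ.filter (fun s : K => C.σ s = -s), ψ (s * H.f w.1 w.1) =
      (C.q : ℂ) * (Nat.card {w : H.perp D // H.f w.1 w.1 = 0} : ℂ) := by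
    have h1 : ∀ w : H.perp D, ∑ s ∈ univ.filter (fun s : K => C.σ s = -s), ψ (s * H.f w.1 w.1) =
        if H.f w.1 w.1 = 0 then (C.q : ℂ) else 0 := by
      intro w
      exact sum_skew ψ hψ _ (H.symm w.1 w.1).symm
    rw [Finset.sum_congr rfl (fun w _ => h1 w), ← Finset.sum_filter, Finset.sum_const,
      nsmul_eq_mul, Nat.card_eq_fintype_card, Fintype.card_subtype, mul_comm]
  have key2 : ∑ w : H.perp D, ∑ s ∈ univ.filter (fun s : K => C.σ s = -s), ψ (s * H.f w.1 w.1) =
      (Nat.card (H.perp D) : ℂ) + ((C.q : ℂ) - 1) * (-(C.q : ℂ)) ^ finrank K W := by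
    rw [Finset.sum_comm]
    have h0mem : (0 : K) ∈ univ.filter (fun s : K => C.σ s = -s) := by simp
    rw [← Finset.add_sum_erase _ _ h0mem]
    have h1 : ∑ w : H.perp D, ψ (0 * H.f w.1 w.1) = (Nat.card (H.perp D) : ℂ) := by
      simp [Nat.card_eq_fintype_card]
    rw [h1]
    congr 1
    have h2 : ∀ s ∈ (univ.filter (fun s : K => C.σ s = -s)).erase 0,
        ∑ w : H.perp D, ψ (s * H.f w.1 w.1) = (-(C.q : ℂ)) ^ finrank K W := by
      intro s hs
      rw [Finset.mem_erase, Finset.mem_filter] at hs
      have hg := gauss C ψ hψ (H.perp D) (fun x y => s * H.f x.1 y.1)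
        (fun x y z => by
          simp only [Submodule.coe_add]
          rw [H.add_right, mul_add])
        (fun a x y => by
          simp only [Submodule.coe_smul]
          rw [H.smul_right]; ring)
        (fun x y => by
          rw [map_mul, hs.2.2, H.symm x.1 y.1, neg_mul, neg_neg])
        (D.comap (H.perp D).subtype)
        (fun x => by
          change x.1 ∈ D ↔ _
          constructor
          · intro hx y
            rw [(H.eq_zero_comm).1 (y.2 x.1 hx), mul_zero]
          · intro hx
            have : x.1 ∈ H.perp (H.perp D) := by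
              intro y hy
              have := hx ⟨y, hy⟩
              exact (mul_eq_zero.1 this).resolve_left hs.1
            rwa [H.perp_perp] at this)
      rw [hg, LinearEquiv.finrank_eq (Submodule.comapSubtypeEquivOfLe hDP), add_comm,
        H.finrank_perp]
    rw [Finset.sum_congr rfl h2, Finset.sum_const, nsmul_eq_mul, Finset.card_erase_of_mem h0mem,
      ← Fintype.card_subtype, ← Nat.card_eq_fintype_card, C.card_skew]
    have hq := C.two_le_q
    rw [Nat.cast_sub (by omega)]
    push_cast
    ring
  have h := key.symm.trans key2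
  have h' : (((C.q : ℚ) * (Nat.card {w : H.perp D // H.f w.1 w.1 = 0} : ℚ) : ℚ) : ℂ) =
      (((Nat.card (H.perp D) : ℚ) + (C.q - 1) * C.X ^ finrank K W : ℚ) : ℂ) := by
    rw [C.X_eq]
    push_cast
    exact h
  exact_mod_cast h'

end U0

end Pool.Agent.MP_359fef_co
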