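import Pool.Agent.Lib.MP_359fef_co.GU
import Pool.Agent.Lib.MP_359fef_co_h40.Transfer
import Pool.Agent.Lib.MP_359fef_co_h69.L1
import Pool.Agent.Lib.MP_359fef_co_h79.TaskB
import Pool.Agent.Lib.MP_359fef_co_h80.TaskD
import Pool.Agent.Lib.MP_359fef_co_h80.TaskE
import Pool.Agent.Lib.MP_359fef_co_helper3.Reduction

/-!
# Evaluation of iterated operators at an irreducible element (MP_359fef_co)
-/

namespace Pool.Agent.MP_359fef_co

open Finset Matrix Module

universe u

section S
variable {K : Type u} [Field K] [Fintype K] {C : Cj K}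

theorem Cj.X_ne_zero (C : Cj K) : C.X ≠ 0 := by
  have := C.two_le_q
  rw [C.X_eq, neg_ne_zero]
  exact_mod_cast (by omega : C.q ≠ 0)

theorem Cj.q_cast_pos (C : Cj K) : (2 : ℚ) ≤ (C.q : ℚ) := by
  exact_mod_cast C.two_le_q

/-- `(x - 1) [n]_x = x^n - 1` -/
theorem qInt_mul (x : ℚ) (n : ℕ) : (x - 1) * qInt x n = x ^ n - 1 := by
  unfold qInt
  rw [mul_comm]
  exact geom_sum_mul x n

/-- the step of the induction for a graph -/
theorem Sprime_graph {n : ℕ} (hn : 1 ≤ n) (c : Matrix (Fin n) (Fin n) K)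
    (hc : InGU C.q c) (hirr : IsIrred c) (a : K) (ha : a ^ (C.q + 1) = 1) (l : List K)
    (W : Type u) [AddCommGroup W] [Module K W] [Finite W] (H : Herm C W)
    (hk : finrank K W < n)
    (ih : ∀ Λ : Submodule K (W × W), IsLag H Λ →
      C.X ^ (finrank K W * l.length) * opL (InGU C.q) C.X l (KR C Λ) c =
        (C.X ^ (n - 1) * qInt C.X n) ^ l.length * KR C Λ c * nt H Λ l.length)
    (h : W ≃ₗ[K] W) (hh : ∀ x y, H.f (h x) (h y) = H.f x y) :
    C.X ^ (finrank K W * (l.length + 1)) *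
        opL (InGU C.q) C.X (a :: l) (KR C h.toLinearMap.graph) c =
      (C.X ^ (n - 1) * qInt C.X n) ^ (l.length + 1) * KR C h.toLinearMap.graph c *
        nt H h.toLinearMap.graph (l.length + 1) := by
  classical
  have : Fintype W := Fintype.ofFinite W
  set k := finrank K W with hkdef
  set m := l.length with hmdef
  set G := (h.toLinearMap.graph : Submodule K (W × W)) with hG
  set D : ℚ := C.X ^ (n - 1) * qInt C.X n with hD
  have hq := C.q_cast_pos
  have hq0 : (C.q : ℚ) ≠ 0 := by linarith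
  have hq2 : ((C.q : ℚ) ^ 2 - 1) ≠ 0 := by nlinarith
  -- apply transfer
  have h1 : ((C.q : ℚ) ^ 2 - 1) * opL (InGU C.q) C.X (a :: l) (KR C G) c =
      C.X ^ (n - k) * (∑ p : W × K, wt H a p.1 p.2 *
        opL (InGU C.q) C.X l (fun g => kap H h g p.1 p.2) c)
      - (if a = 1 then ((C.q : ℚ) - 1) * C.X ^ n else 0) * opL (InGU C.q) C.X l (KR C G) c := by
    change ((C.q : ℚ) ^ 2 - 1) * opL (InGU C.q) C.X l (op (InGU C.q) C.X a (KR C G)) c = _
    rw [← opL_smul]
    have h2 : ∀ g : Matrix (Fin n) (Fin n) K, InGU C.q g →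
        ((C.q : ℚ) ^ 2 - 1) * op (InGU C.q) C.X a (KR C G) g =
        C.X ^ (n - k) * (∑ p : W × K, wt H a p.1 p.2 * kap H h g p.1 p.2)
        - (if a = 1 then ((C.q : ℚ) - 1) * C.X ^ n else 0) * KR C G g := by
      intro g hg
      have h3 := transfer C n a ha g hg W H h hh hk.le
      rw [hG, h3, Fintype.sum_prod_type]
      congr 1
      split_ifs <;> simp
    rw [opL_congr (InGU C.q) C.X (fun g g' h1 h2 => h1.mul h2) l _ _ h2 c hc]
    rw [opL_sub, opL_smul, opL_smul, opL_sum]
  -- values of the terms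
  have h4 : ∀ (w : W) (μ : K), μ + C.σ μ = - H.f w w →
      C.X ^ (k * m) * opL (InGU C.q) C.X l (fun g => kap H h g w μ) c =
        D ^ m * kap H h c w μ * nt H (Lam H h w μ) m := by
    intro w μ hμ
    have h5 := ih _ (Lam_isLag H h hh w μ hμ)
    have h6 : opL (InGU C.q) C.X l (fun g => kap H h g w μ) c =
        (if w = 0 ∧ μ = 0 then C.X ^ n else 1) *
          opL (InGU C.q) C.X l (KR C (Lam H h w μ)) c := by
      rw [← opL_smul]
      refine opL_congr (InGU C.q) C.X (fun g g' h1 h2 => h1.mul h2) l _ _ ?_ c hc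
      intro g hg
      rw [kap_eq H h hh w μ hμ n g hg]
      ring
    rw [h6, kap_eq H h hh w μ hμ n c hc]
    linear_combination (if w = 0 ∧ μ = 0 then C.X ^ n else 1) * h5
  -- value of kap at c
  have h7 : ∀ (w : W) (μ : K), wt H a w μ * kap H h c w μ =
      wt H a w μ + (C.X ^ n - 1) * (if μ = 0 ∧ (∀ r : ℕ, H.f w ((h ^ r) w) = 0) then
        1 - (C.q : ℚ)⁻¹ else 0) := by
    intro w μ
    by_cases hμ : μ + C.σ μ = - H.f w w
    · by_cases h0 : μ = 0
      · subst h0
        have hww : H.f w w = 0 := by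
          rw [map_zero, add_zero] at hμ
          exact (neg_eq_zero.1 hμ.symm)
        rw [taskD2 c hc hirr H h hh hk w hww]
        have hwt : wt H a w 0 = 1 - (C.q : ℚ)⁻¹ := by
          unfold wt
          rw [if_pos hμ, if_pos (by rw [map_zero, mul_zero, neg_zero])]
        rw [hwt]
        split_ifs with h8 h9 h9
        · ring
        · exact absurd ⟨rfl, h8⟩ h9
        · exact absurd h9.2 h8
        · ring
      · rw [taskD3 c hc hirr H h hh hk w μ h0 hμ, if_neg (fun h9 => h0 h9.1)]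
        ring
    · have hwt : wt H a w μ = 0 := by
        unfold wt
        rw [if_neg hμ]
      rw [hwt, if_neg]
      · ring
      · rintro ⟨rfl, h8⟩
        apply hμ
        have := h8 0
        rw [pow_zero] at this
        have h9 : H.f w w = 0 := this
        rw [h9, map_zero, add_zero, neg_zero]
  -- the sum
  have h8 : C.X ^ (k * m) * (∑ p : W × K, wt H a p.1 p.2 *
      opL (InGU C.q) C.X l (fun g => kap H h g p.1 p.2) c) =
      D ^ m * ((if a = 1 then ((C.q : ℚ) - 1) * C.X ^ k * nt H G m else 0) +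
        (C.X ^ n - 1) * (1 - (C.q : ℚ)⁻¹) * nt H G (m + 1)) := by
    have h9 : C.X ^ (k * m) * (∑ p : W × K, wt H a p.1 p.2 *
        opL (InGU C.q) C.X l (fun g => kap H h g p.1 p.2) c) =
        D ^ m * ∑ p : W × K, (wt H a p.1 p.2 * kap H h c p.1 p.2) * nt H (Lam H h p.1 p.2) m := by
      rw [Finset.mul_sum, Finset.mul_sum]
      refine Finset.sum_congr rfl ?_
      rintro ⟨w, μ⟩ _
      by_cases hμ : μ + C.σ μ = - H.f w w
      · have := h4 w μ hμ
        simp only
        linear_combination wt H a w μ * this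
      · have hwt : wt H a w μ = 0 := by
          unfold wt
          rw [if_neg hμ]
        simp only [hwt]
        ring
    rw [h9]
    congr 1
    have h10 : ∀ p : W × K, (wt H a p.1 p.2 * kap H h c p.1 p.2) * nt H (Lam H h p.1 p.2) m =
        wt H a p.1 p.2 * nt H (Lam H h p.1 p.2) m +
        (C.X ^ n - 1) * (1 - (C.q : ℚ)⁻¹) * (if p.2 = 0 ∧ (∀ r : ℕ, H.f p.1 ((h ^ r) p.1) = 0) then
          nt H (Lam H h p.1 p.2) m else 0) := by
      intro p
      rw [h7]
      split_ifs <;> ring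
    rw [Finset.sum_congr rfl (fun p _ => h10 p), Finset.sum_add_distrib, ← Finset.mul_sum]
    congr 1
    · rw [Fintype.sum_prod_type]
      exact taskB a ha H h hh m
    · congr 1
      rw [← taskE H h hh m, Fintype.sum_prod_type, Finset.sum_filter]
      refine Finset.sum_congr rfl (fun w _ => ?_)
      rw [Finset.sum_eq_single 0]
      · by_cases h11 : ∀ r : ℕ, H.f w ((h ^ r) w) = 0
        · rw [if_pos ⟨rfl, h11⟩, if_pos h11]
        · rw [if_neg (fun h12 => h11 h12.2), if_neg h11]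
      · intro μ _ hμ0
        rw [if_neg (fun h12 => hμ0 h12.1)]
      · intro h12
        exact absurd (mem_univ _) h12
  -- KR at c
  have h11 := ih G (graph_isLag H h hh)
  have h12 : KR C G c = 1 := taskD1 c hc hirr h hk
  rw [h12, mul_one] at h11
  rw [h12, mul_one]
  -- final algebra
  have h13 : C.X ^ (k * m) * (((C.q : ℚ) ^ 2 - 1) * opL (InGU C.q) C.X (a :: l) (KR C G) c) =
      C.X ^ (n - k) * (D ^ m * ((C.X ^ n - 1) * (1 - (C.q : ℚ)⁻¹) * nt H G (m + 1))) := by
    rw [h1]
    have hpow : C.X ^ (n - k) * C.X ^ k = C.X ^ n := by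
      rw [← pow_add, Nat.sub_add_cancel hk.le]
    split_ifs at h8 ⊢ with ha1
    · linear_combination C.X ^ (n - k) * h8 - ((C.q : ℚ) - 1) * C.X ^ n * h11 +
        D ^ m * ((C.q : ℚ) - 1) * nt H G m * hpow
    · linear_combination C.X ^ (n - k) * h8
  have h14 : D * ((C.q : ℚ) ^ 2 - 1) = C.X ^ n * ((C.X ^ n - 1) * (1 - (C.q : ℚ)⁻¹)) := by
    have h15 := qInt_mul C.X n
    have h16 : C.X ^ n = C.X * C.X ^ (n - 1) := by
      rw [← pow_succ']
      congr 1
      omega
    have h17 : (1 - (C.q : ℚ)⁻¹) * C.q = C.q - 1 := by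
      field_simp
    have h18 : C.X = -(C.q : ℚ) := rfl
    have h19 : C.X * (1 - (C.q : ℚ)⁻¹) = -((C.q : ℚ) - 1) := by
      rw [h18]
      linear_combination -h17
    calc D * ((C.q : ℚ) ^ 2 - 1)
        = C.X ^ (n - 1) * (-((C.q : ℚ) - 1)) * ((C.X - 1) * qInt C.X n) := by
          rw [hD, h18]; ring
      _ = C.X ^ (n - 1) * (C.X * (1 - (C.q : ℚ)⁻¹)) * (C.X ^ n - 1) := by rw [h15, h19]
      _ = (C.X * C.X ^ (n - 1)) * ((C.X ^ n - 1) * (1 - (C.q : ℚ)⁻¹)) := by ring
      _ = C.X ^ n * ((C.X ^ n - 1) * (1 - (C.q : ℚ)⁻¹)) := by rw [← h16]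
  have hpow : C.X ^ (n - k) * C.X ^ k = C.X ^ n := by
    rw [← pow_add, Nat.sub_add_cancel hk.le]
  have h20 : ((C.q : ℚ) ^ 2 - 1) * (C.X ^ (k * (m + 1)) *
      opL (InGU C.q) C.X (a :: l) (KR C G) c) =
      ((C.q : ℚ) ^ 2 - 1) * (D ^ (m + 1) * nt H G (m + 1)) := by
    have h21 : C.X ^ (k * (m + 1)) = C.X ^ k * C.X ^ (k * m) := by
      rw [← pow_add]
      congr 1
      ring
    rw [h21, pow_succ]
    linear_combination C.X ^ k * h13 + D ^ m * nt H G (m + 1) * ((C.X ^ n - 1) *
      (1 - (C.q : ℚ)⁻¹)) * hpow - D ^ m * nt H G (m + 1) * h14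
  exact mul_left_cancel₀ hq2 h20

/-- evaluation of the iterated operators at `c` -/
theorem Sprime {n : ℕ} (hn : 1 ≤ n) (c : Matrix (Fin n) (Fin n) K)
    (hc : InGU C.q c) (hirr : IsIrred c) (l : List K) (hl : ∀ a ∈ l, a ^ (C.q + 1) = 1)
    (W : Type u) [AddCommGroup W] [Module K W] [Finite W] (H : Herm C W)
    (Λ : Submodule K (W × W)) (hΛ : IsLag H Λ) (hk : finrank K W < n) :
    C.X ^ (finrank K W * l.length) * opL (InGU C.q) C.X l (KR C Λ) c =
      (C.X ^ (n - 1) * qInt C.X n) ^ l.length * KR C Λ c * nt H Λ l.length := by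
  induction l generalizing W with
  | nil =>
    simp only [List.length_nil, mul_zero, pow_zero, one_mul, nt_zero, mul_one]
    rfl
  | cons a l ihl =>
    have hl' : ∀ b ∈ l, b ^ (C.q + 1) = 1 := fun b hb => hl b (List.mem_cons_of_mem _ hb)
    have ha : a ^ (C.q + 1) = 1 := hl a List.mem_cons_self
    -- strong induction on the dimension
    suffices hmain : ∀ (d : ℕ) (W : Type u) [AddCommGroup W] [Module K W] [Finite W]
        (H : Herm C W) (Λ : Submodule K (W × W)) (_ : IsLag H Λ) (_ : finrank K W < n),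
        finrank K W = d →
        C.X ^ (finrank K W * (a :: l).length) * opL (InGU C.q) C.X (a :: l) (KR C Λ) c =
        (C.X ^ (n - 1) * qInt C.X n) ^ (a :: l).length * KR C Λ c * nt H Λ (a :: l).length from
      hmain _ W H Λ hΛ hk rfl
    intro d
    induction d using Nat.strong_induction_on with
    | _ d ihd =>
      intro W _ _ _ H Λ hΛ hk hd
      rcases reduction H Λ hΛ with ⟨h, hh, rfl⟩ | ⟨W', _, _, _, H', Λ', δ, hΛ', hdim, hnt, hKR⟩
      · rw [List.length_cons]
        exact Sprime_graph hn c hc hirr a ha l W H hk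
          (fun Λ hΛ => ihl hl' W H Λ hΛ hk) h hh
      · have h1 := ihd (finrank K W') (by omega) W' H' Λ' hΛ' (by omega) rfl
        have h2 : opL (InGU C.q) C.X (a :: l) (KR C Λ) c =
            C.X ^ (n * δ) * opL (InGU C.q) C.X (a :: l) (KR C Λ') c := by
          rw [← opL_smul]
          refine opL_congr (InGU C.q) C.X (fun g g' h1 h2 => h1.mul h2) _ _ _ ?_ c hc
          intro g hg
          exact hKR n g hg
        rw [h2, hKR n c hc, hnt]
        have h3 : C.X ^ (finrank K W * (a :: l).length) =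
            C.X ^ (finrank K W' * (a :: l).length) * (C.q : ℚ) ^ (2 * (a :: l).length) := by
          rw [← hdim, add_mul, pow_add]
          congr 1
          rw [pow_mul, pow_mul, C.X_eq, neg_sq]
        rw [h3]
        linear_combination C.X ^ (n * δ) * (C.q : ℚ) ^ (2 * (a :: l).length) * h1

end S

end Pool.Agent.MP_359fef_co
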